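import Pool.Agent.AEC.StmtsZ

/-!
# Squad AEC, row KBO: a linear order which is universal for small well-orders
-/

set_option autoImplicit false

open FirstOrder FirstOrder.Language Cardinal Set

universe u

noncomputable section

namespace Pool.Agent.AEC.H56

open Pool.Agent.AEC

theorem kbo_ord (I : Type u) [LinearOrder I] [WellFoundedLT I] (a₀ b₀ : I) (hab : a₀ < b₀) :
    ∀ ζ : Ordinal.{u}, ζ.card ≤ #I → ∃ f : Ordinal.{u} → List I,
      ∀ x y, x < y → y < ζ → f x < f y := by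
  classical
  intro ζ
  induction ζ using Ordinal.limitRecOn with
  | zero =>
    intro _
    exact ⟨fun _ => [], fun x y _ hy => absurd hy (not_lt.2 bot_le)⟩
  | add_one ζ ih =>
    intro hζ
    obtain ⟨f, hf⟩ := ih ((Ordinal.card_le_card (Order.lt_add_one_iff.2 le_rfl).le).trans hζ)
    refine ⟨fun x => if x < ζ then a₀ :: f x else [b₀], ?_⟩
    intro x y hxy hy
    have hy' : y ≤ ζ := Order.lt_add_one_iff.1 hy
    have hx : x < ζ := lt_of_lt_of_le hxy hy'
    beta_reduce
    rw [if_pos hx]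
    by_cases h : y < ζ
    · rw [if_pos h]
      exact List.Lex.cons (hf x y hxy h)
    · rw [if_neg h]
      exact List.Lex.rel hab
  | limit ζ hl ih =>
    intro hζ
    have hζ0 : 0 < ζ := by
      refine bot_lt_iff_ne_bot.2 ?_
      intro h
      rw [h] at hl
      exact hl.1 isMin_bot
    -- an enumeration
    obtain ⟨a, ha1, ha2⟩ : ∃ a : I → Ordinal.{u}, (∀ i, a i < ζ) ∧ ∀ x < ζ, ∃ i, a i = x := by
      rw [← Cardinal.mk_toType] at hζ
      obtain ⟨e⟩ := hζ
      have : Nonempty ζ.ToType := ⟨Ordinal.ToType.mk ⟨0, hζ0⟩⟩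
      refine ⟨fun i => ((Ordinal.ToType.mk (o := ζ)).symm (Function.invFun e i) : Set.Iio ζ).1,
        fun i => ((Ordinal.ToType.mk (o := ζ)).symm (Function.invFun e i)).2, ?_⟩
      intro x hx
      refine ⟨e (Ordinal.ToType.mk ⟨x, hx⟩), ?_⟩
      beta_reduce
      rw [Function.leftInverse_invFun e.injective, OrderIso.symm_apply_apply]
    have hk : ∀ x, ∃ i : I, x < ζ → (x ≤ a i ∧ ∀ j, x ≤ a j → i ≤ j) := by
      intro x
      by_cases hx : x < ζ
      · obtain ⟨i, hi⟩ := ha2 x hx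
        obtain ⟨j, hj1, hj2⟩ := (wellFounded_lt (α := I)).has_min {i | x ≤ a i} ⟨i, hi.ge⟩
        exact ⟨j, fun _ => ⟨hj1, fun k hk => not_lt.1 (hj2 k hk)⟩⟩
      · exact ⟨a₀, fun h => absurd h hx⟩
    choose k hk using hk
    have hF : ∀ i, ∃ f : Ordinal.{u} → List I, ∀ x y, x < y → y < a i + 1 → f x < f y := by
      intro i
      have h1 : a i + 1 < ζ := by
        have := hl.succ_lt (ha1 i)
        rwa [Order.succ_eq_add_one] at this
      exact ih (a i + 1) h1 ((Ordinal.card_le_card h1.le).trans hζ)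
    choose F hF using hF
    refine ⟨fun x => k x :: F (k x) x, ?_⟩
    intro x y hxy hy
    have hx : x < ζ := hxy.trans hy
    obtain ⟨hx1, hx2⟩ := hk x hx
    obtain ⟨hy1, hy2⟩ := hk y hy
    have hkk : k x ≤ k y := hx2 _ (hxy.le.trans hy1)
    beta_reduce
    rcases hkk.lt_or_eq with h | h
    · exact List.Lex.rel h
    · rw [h]
      exact List.Lex.cons (hF (k y) x y hxy (Order.lt_add_one_iff.2 hy1))

theorem kbo : KboStmt.{u} := by
  classical
  intro θ hθ
  have hI : #θ.ord.ToType = θ := Cardinal.mk_ord_toType θ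
  have hinf : Infinite θ.ord.ToType := by
    rw [Cardinal.infinite_iff, hI]
    exact hθ
  refine ⟨List θ.ord.ToType, inferInstance, ?_, ?_⟩
  · rw [Cardinal.mk_list_eq_mk, hI]
  · intro W _ _ hW
    obtain ⟨a, b, hab⟩ := exists_pair_ne θ.ord.ToType
    obtain ⟨a₀, b₀, hab⟩ : ∃ a₀ b₀ : θ.ord.ToType, a₀ < b₀ := by
      rcases lt_or_gt_of_ne hab with h | h
      · exact ⟨a, b, h⟩
      · exact ⟨b, a, h⟩
    obtain ⟨f, hf⟩ := kbo_ord θ.ord.ToType a₀ b₀ hab (Ordinal.type (α := W) (· < ·)) (by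
      rw [Ordinal.card_type, hI]
      exact hW)
    refine ⟨OrderEmbedding.ofStrictMono
      (fun w => f (Ordinal.typein (α := W) (· < ·) w)) ?_⟩
    intro x y hxy
    exact hf _ _ ((Ordinal.typein_lt_typein (α := W) (· < ·)).2 hxy)
      (Ordinal.typein_lt_type (α := W) (· < ·) y)

end Pool.Agent.AEC.H56
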