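import Pool.Agent.AEC.StmtsS

/-!
# Squad AEC, row S_ORB: many conjugate components
-/

set_option autoImplicit false

open FirstOrder FirstOrder.Language Cardinal Set

universe u

noncomputable section

namespace Pool.Agent.AEC.H56

open Pool.Agent.AEC Pool.Agent.AEC.S

section graph

variable {L : FirstOrder.Language.{u, u}} {N : Type u} [L.Structure N]

theorem adj_symm {x y : N} (h : adj L x y) : adj L y x := by
  obtain ⟨h1, n, R, v, h2, h3, h4⟩ := h
  exact ⟨h1.symm, n, R, v, h2, h4, h3⟩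

theorem con_not {T : Set N} {x y : N} (h : con L T x y) (hx : x ∉ T) : y ∉ T := by
  induction h with
  | refl => exact hx
  | tail _ h2 _ => exact h2.2

theorem con_symm {T : Set N} {x y : N} (h : con L T x y) (hx : x ∉ T) : con L T y x := by
  induction h with
  | refl => exact Relation.ReflTransGen.refl
  | tail h1 h2 ih => exact Relation.ReflTransGen.head ⟨adj_symm h2.1, con_not h1 hx⟩ ih

theorem con_mono {T T' : Set N} (hT : T' ⊆ T) {x y : N} (h : con L T x y) : con L T' x y := by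
  induction h with
  | refl => exact Relation.ReflTransGen.refl
  | tail _ h2 ih => exact Relation.ReflTransGen.tail ih ⟨h2.1, fun h => h2.2 (hT h)⟩

theorem adj_map (e : N ≃[L] N) {x y : N} (h : adj L x y) : adj L (e x) (e y) := by
  obtain ⟨h1, n, R, v, h2, ⟨i, hi⟩, j, hj⟩ := h
  refine ⟨fun h => h1 (e.injective h), n, R, fun k => e (v k), (e.map_rel R v).2 h2,
    ⟨i, congrArg e hi⟩, j, congrArg e hj⟩

theorem con_map (e : N ≃[L] N) {B : Set N} (hB : ∀ b ∈ B, e b = b) {x y : N}
    (h : con L B x y) : con L B (e x) (e y) := by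
  induction h with
  | refl => exact Relation.ReflTransGen.refl
  | @tail a b _ h2 ih =>
    refine Relation.ReflTransGen.tail ih ⟨adj_map e h2.1, fun h3 => h2.2 ?_⟩
    have h4 : e b = b := e.injective (hB _ h3)
    rw [← h4]
    exact h3

/-- the component of `c` in the complement of `M`, and its neighbours -/
structure CB (M : Set N) (c : N) (C B : Set N) : Prop where
  hC : C = cmp L M c
  hB : B = {s | s ∈ M ∧ ∃ y ∈ C, adj L s y}
  hc : c ∉ M

theorem CB.c_mem {M : Set N} {c : N} {C B : Set N} (h : CB (L := L) M c C B) : c ∈ C := by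
  rw [h.hC]
  exact Relation.ReflTransGen.refl

theorem CB.not_mem {M : Set N} {c : N} {C B : Set N} (h : CB (L := L) M c C B) {x : N}
    (hx : x ∈ C) : x ∉ M := by
  rw [h.hC] at hx
  exact con_not hx h.hc

theorem CB.step {M : Set N} {c : N} {C B : Set N} (h : CB (L := L) M c C B) {x y : N}
    (hx : x ∈ C) (hxy : adj L x y) (hy : y ∉ M) : y ∈ C := by
  rw [h.hC] at hx ⊢
  exact Relation.ReflTransGen.tail hx ⟨hxy, hy⟩

theorem CB.closed {M : Set N} {c : N} {C B : Set N} (h : CB (L := L) M c C B) {x y : N}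
    (hx : x ∈ C) (hxy : adj L x y) : y ∈ C ∨ y ∈ B := by
  by_cases hy : y ∈ M
  · right
    rw [h.hB]
    exact ⟨hy, x, hx, adj_symm hxy⟩
  · left
    exact h.step hx hxy hy

theorem CB.con_c {M : Set N} {c : N} {C B : Set N} (h : CB (L := L) M c C B) {y : N}
    (hy : y ∈ C) : con L Cᶜ c y := by
  have h1 : con L M c y := by
    rw [h.hC] at hy
    exact hy
  clear hy
  induction h1 with
  | refl => exact Relation.ReflTransGen.refl
  | @tail a b h2 h3 ih =>
    refine Relation.ReflTransGen.tail ih ⟨h3.1, fun h4 => h4 ?_⟩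
    rw [h.hC]
    exact Relation.ReflTransGen.tail h2 h3

theorem CB.conn {M : Set N} {c : N} {C B : Set N} (h : CB (L := L) M c C B) {x y : N}
    (hx : x ∈ C) (hy : y ∈ C) : con L Cᶜ x y :=
  Relation.ReflTransGen.trans (con_symm (h.con_c hx) (fun h1 => h1 h.c_mem)) (h.con_c hy)

theorem CB.b_sub {M : Set N} {c : N} {C B : Set N} (h : CB (L := L) M c C B) {x : N}
    (hx : x ∈ B) : x ∈ M := by
  rw [h.hB] at hx
  exact hx.1

theorem CB.eq_cmp {M : Set N} {c : N} {C B : Set N} (h : CB (L := L) M c C B) {x : N}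
    (hx : x ∈ C) : C = cmp L B x := by
  apply Set.Subset.antisymm
  · intro y hy
    refine con_mono (T := Cᶜ) ?_ (h.conn hx hy)
    intro b hb hbC
    exact h.not_mem hbC (h.b_sub hb)
  · intro y hy
    have h1 : con L B x y := hy
    clear hy
    induction h1 with
    | refl => exact hx
    | @tail a b _ h2 ih =>
      rcases h.closed ih h2.1 with h3 | h3
      · exact h3
      · exact absurd h3 h2.2

theorem CB.image {M : Set N} {c : N} {C B : Set N} (h : CB (L := L) M c C B)
    (e : N ≃[L] N) (he : ∀ b ∈ B, e b = b) {x : N} (hx : x ∈ C) (hex : e x ∈ C) :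
    (fun z => e z) '' C = C := by
  have he' : ∀ b ∈ B, e.symm b = b := by
    intro b hb
    have h1 := he b hb
    conv_lhs => rw [← h1]
    exact e.symm_apply_apply b
  apply Set.Subset.antisymm
  · rintro _ ⟨y, hy, rfl⟩
    rw [h.eq_cmp hex]
    rw [h.eq_cmp hx] at hy
    exact con_map e he hy
  · intro y hy
    refine ⟨e.symm y, ?_, e.apply_symm_apply y⟩
    rw [h.eq_cmp hx]
    have h1 : con L B (e x) y := by
      rw [h.eq_cmp hex] at hy
      exact hy
    have h2 := con_map e.symm he' h1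
    rw [e.symm_apply_apply] at h2
    exact h2

end graph

section em

variable {L : FirstOrder.Language.{u, u}} {κ : Cardinal.{u}} {K : AEC L κ}

/-- the automorphism induced by an automorphism of the order -/
def aut (E : K.EM) {J : Type u} [LinearOrder J] (σ : J ≃o J) :
    (E.obj J).α ≃[L] (E.obj J).α where
  toFun x := E.map σ.toOrderEmbedding x
  invFun x := E.map σ.symm.toOrderEmbedding x
  left_inv := fun x => by
    beta_reduce
    rw [← E.map_comp σ.toOrderEmbedding σ.symm.toOrderEmbedding (OrderIso.refl J).toOrderEmbedding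
      (fun i => (σ.symm_apply_apply i).symm), E.map_id J _ (fun i => rfl)]
  right_inv := fun x => by
    beta_reduce
    rw [← E.map_comp σ.symm.toOrderEmbedding σ.toOrderEmbedding (OrderIso.refl J).toOrderEmbedding
      (fun i => (σ.apply_symm_apply i).symm), E.map_id J _ (fun i => rfl)]
  map_fun' := (E.map σ.toOrderEmbedding).toEmb.map_fun'
  map_rel' := (E.map σ.toOrderEmbedding).toEmb.map_rel'

theorem aut_apply (E : K.EM) {J : Type u} [LinearOrder J] (σ : J ≃o J) (x : (E.obj J).α) :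
    aut E σ x = E.map σ.toOrderEmbedding x := rfl

theorem aut_trans (E : K.EM) {J : Type u} [LinearOrder J] (σ τ : J ≃o J) (x : (E.obj J).α) :
    aut E (σ.trans τ) x = aut E τ (aut E σ x) := by
  rw [aut_apply, aut_apply, aut_apply]
  exact E.map_comp σ.toOrderEmbedding τ.toOrderEmbedding (σ.trans τ).toOrderEmbedding
    (fun _ => rfl) x

theorem aut_refl (E : K.EM) {J : Type u} [LinearOrder J] (x : (E.obj J).α) :
    aut E (OrderIso.refl J) x = x := by
  rw [aut_apply]
  exact E.map_id J _ (fun _ => rfl) x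

theorem aut_symm_apply (E : K.EM) {J : Type u} [LinearOrder J] (σ : J ≃o J)
    (x : (E.obj J).α) : aut E σ (aut E σ.symm x) = x := by
  rw [← aut_trans]
  have h : σ.symm.trans σ = OrderIso.refl J := by
    ext i
    exact σ.apply_symm_apply i
  rw [h, aut_refl]

/-- an element of the range of `E.map a` is fixed if the range of `a` is fixed -/
theorem aut_fix (E : K.EM) {I J : Type u} [LinearOrder I] [LinearOrder J] (a : I ↪o J)
    (y : (E.obj I).α) (σ : J ≃o J) (h : ∀ i, σ (a i) = a i) :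
    aut E σ (E.map a y) = E.map a y := by
  rw [aut_apply]
  exact (E.map_comp a σ.toOrderEmbedding a (fun i => (h i).symm) y).symm

theorem aut_range (E : K.EM) {I J : Type u} [LinearOrder I] [LinearOrder J] (a : I ↪o J)
    (y : (E.obj I).α) (σ : J ≃o J) (D : Set J) (h : ∀ i, σ (a i) ∈ D) :
    aut E σ (E.map a y) ∈ Set.range (E.map (OrderEmbedding.subtype fun i : J => i ∈ D)) := by
  let b : I ↪o {i : J // i ∈ D} := OrderEmbedding.ofMapLEIff (fun i => ⟨σ (a i), h i⟩)
    (fun i j => by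
      change σ (a i) ≤ σ (a j) ↔ i ≤ j
      rw [σ.le_iff_le, a.le_iff_le])
  refine ⟨E.map b y, ?_⟩
  have h1 := E.map_comp b (OrderEmbedding.subtype fun i : J => i ∈ D)
    (a.trans σ.toOrderEmbedding) (fun i => rfl) y
  have h2 := E.map_comp a σ.toOrderEmbedding (a.trans σ.toOrderEmbedding) (fun i => rfl) y
  rw [aut_apply, ← h2, h1]

theorem s_orb (ord : OrdStmt.{u}) (ncp : NcpStmt.{u}) (sep : SepStmt.{u}) : OrbStmt.{u} := by
  classical
  intro L κ K hsp hE
  obtain ⟨E⟩ := hE
  obtain ⟨J, _, _, _, o, hJ⟩ := ord κ K.aleph0_le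
  obtain ⟨c, hc⟩ := ncp L κ K E J o hJ
  have hsm := sep L κ K E J o hJ (hsp _) c hc
  obtain ⟨M, hM⟩ : ∃ M : Set (E.obj J).α, M = Set.range
    (E.map (OrderEmbedding.subtype fun i : J => i ∈ ({o}ᶜ : Set J))) := ⟨_, rfl⟩
  rw [← hM] at hsm hc
  obtain ⟨C, hC⟩ : ∃ C : Set (E.obj J).α, C = cmp L M c := ⟨_, rfl⟩
  rw [← hC] at hsm
  obtain ⟨B, hB⟩ : ∃ B : Set (E.obj J).α, B = {s | s ∈ M ∧ ∃ y ∈ C, adj L s y} := ⟨_, rfl⟩
  rw [← hB] at hsm
  have hcb : CB (L := L) M c C B := ⟨hC, hB, hc⟩
  -- supports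
  have hsB : ∀ s : B, ∃ t : Finset J, o ∉ t ∧ ∀ σ : J ≃o J, (∀ i ∈ t, σ i = i) →
      aut E σ s = s := by
    intro s
    have h1 : (s : (E.obj J).α) ∈ M := hcb.b_sub s.2
    rw [hM] at h1
    obtain ⟨y, hy⟩ := h1
    obtain ⟨t, z, hz⟩ := E.supp _ y
    refine ⟨t.image Subtype.val, ?_, ?_⟩
    · intro h2
      rw [Finset.mem_image] at h2
      obtain ⟨a, _, ha⟩ := h2
      exact a.2 ha
    · intro σ hσ
      obtain ⟨a, ha⟩ : ∃ a : (t : Set {i : J // i ∈ ({o}ᶜ : Set J)}) ↪o
          {i : J // i ∈ ({o}ᶜ : Set J)}, a = OrderEmbedding.subtype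
            (fun i : {i : J // i ∈ ({o}ᶜ : Set J)} => i ∈ (t : Set {i : J // i ∈ ({o}ᶜ : Set J)})) :=
        ⟨OrderEmbedding.subtype
            (fun i : {i : J // i ∈ ({o}ᶜ : Set J)} => i ∈ (t : Set {i : J // i ∈ ({o}ᶜ : Set J)})),
          rfl⟩
      rw [← ha] at hz
      have h3 := E.map_comp a (OrderEmbedding.subtype fun i : J => i ∈ ({o}ᶜ : Set J))
        (a.trans (OrderEmbedding.subtype fun i : J => i ∈ ({o}ᶜ : Set J))) (fun i => rfl) z
      rw [hz, hy] at h3
      rw [← h3]
      refine aut_fix E _ z σ ?_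
      intro i
      rw [ha]
      exact hσ _ (Finset.mem_image_of_mem _ i.2)
  choose fs hfo hfs using hsB
  obtain ⟨tc, z, hz⟩ := E.supp J c
  obtain ⟨I₀, hI₀⟩ : ∃ I₀ : Set J, I₀ = (⋃ s : B, (fs s : Set J)) ∪ ((tc : Set J) \ {o}) :=
    ⟨_, rfl⟩
  have hκ := K.aleph0_le
  have hI₀o : o ∉ I₀ := by
    rw [hI₀]
    rintro (h | h)
    · rw [Set.mem_iUnion] at h
      obtain ⟨s, hs⟩ := h
      exact hfo s hs
    · exact h.2 rfl
  have hI₀c : #I₀ ≤ κ := by
    rw [hI₀]
    refine (Cardinal.mk_union_le _ _).trans ?_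
    refine Cardinal.add_le_of_le hκ ?_ ?_
    · refine (Cardinal.mk_iUnion_le _).trans ?_
      refine (mul_le_mul' hsm (ciSup_le' fun s => ?_)).trans (Cardinal.mul_eq_self hκ).le
      exact (Cardinal.mk_le_aleph0 (α := (fs s : Set J))).trans hκ
    · exact ((Cardinal.lt_aleph0_of_finite
        (↥((tc : Set J) \ {o}))).le).trans hκ
  have hfixB : ∀ σ : J ≃o J, (∀ a ∈ I₀, σ a = a) → ∀ s ∈ B, aut E σ s = s := by
    intro σ hσ s hs
    refine hfs ⟨s, hs⟩ σ fun i hi => hσ i ?_
    rw [hI₀]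
    left
    rw [Set.mem_iUnion]
    exact ⟨⟨s, hs⟩, hi⟩
  -- the index set
  let ι : Type u := {D : Set (E.obj J).α // ∃ σ : J ≃o J, (∀ a ∈ I₀, σ a = a) ∧
    D = (fun x => aut E σ x) '' C}
  let k₀ : ι := ⟨C, OrderIso.refl J, fun _ _ => rfl, by
    have h : (fun x => aut E (OrderIso.refl J) x) = id := funext fun x => aut_refl E x
    rw [h, Set.image_id]⟩
  have hex : ∀ k : ι, ∃ σ : J ≃o J, (∀ a ∈ I₀, σ a = a) ∧
      k.1 = (fun x => aut E σ x) '' C ∧ (k = k₀ → σ = OrderIso.refl J) := by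
    intro k
    by_cases hk : k = k₀
    · refine ⟨OrderIso.refl J, fun _ _ => rfl, ?_, fun _ => rfl⟩
      rw [hk]
      have h : (fun x => aut E (OrderIso.refl J) x) = id := funext fun x => aut_refl E x
      rw [h, Set.image_id]
    · obtain ⟨σ, h1, h2⟩ := k.2
      exact ⟨σ, h1, h2, fun h => absurd h hk⟩
  choose g hg1 hg2 hg3 using hex
  refine ⟨{ N := E.obj J, B := B, C := C, ι := ι, e := fun k => aut E (g k), k₀ := k₀,
            hk₀ := ?_, ne := ⟨c, hcb.c_mem⟩, big := ?_, small := hsm, fix := ?_, disj := ?_,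
            dis := ?_, closed := fun x hx y hxy => hcb.closed hx hxy,
            conn := fun x hx y hy => hcb.conn hx hy, nbr := ?_ }⟩
  · intro x _
    change aut E (g k₀) x = x
    rw [hg3 k₀ rfl]
    exact aut_refl E x
  · by_contra hcon
    rw [not_lt] at hcon
    obtain ⟨h, hh1, hh2⟩ := hJ (I₀ ∪ Set.range (fun k : ι => g k o)) (by
      refine (Cardinal.mk_union_le _ _).trans ?_
      exact Cardinal.add_le_of_le hκ hI₀c (Cardinal.mk_range_le.trans hcon))
    have hhG : ∀ a ∈ I₀, h a = a := by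
      intro a ha
      exact hh1 a (Or.inl ha) (fun h1 => hI₀o (h1 ▸ ha))
    have hhG' : ∀ a ∈ I₀, h.symm a = a := by
      intro a ha
      rw [OrderIso.symm_apply_eq, hhG a ha]
    have hho : ∀ k : ι, h (g k o) ≠ o := by
      intro k hk
      by_cases h1 : g k o = o
      · rw [h1] at hk
        exact hh2 hk
      · rw [hh1 _ (Or.inr ⟨k, rfl⟩) h1] at hk
        exact h1 hk
    obtain ⟨k, hk⟩ : ∃ k : ι, k.1 = (fun x => aut E h.symm x) '' C :=
      ⟨⟨_, h.symm, hhG', rfl⟩, rfl⟩
    have h2 : aut E (g k) c ∈ k.1 := by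
      rw [hg2 k]
      exact ⟨c, hcb.c_mem, rfl⟩
    rw [hk] at h2
    obtain ⟨x, hx, hx2⟩ := h2
    change aut E h.symm x = aut E (g k) c at hx2
    have h3 : aut E h (aut E (g k) c) = x := by
      rw [← hx2, aut_symm_apply]
    rw [← aut_trans, ← hz] at h3
    apply hcb.not_mem hx
    rw [← h3, hM]
    refine aut_range E _ z _ _ ?_
    intro i
    change h (g k i.1) ≠ o
    by_cases hi : i.1 = o
    · rw [hi]
      exact hho k
    · have h4 : i.1 ∈ I₀ := by
        rw [hI₀]
        exact Or.inr ⟨i.2, hi⟩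
      rw [hg1 k _ h4, hhG _ h4]
      exact hi
  · intro k s hs
    exact hfixB (g k) (hg1 k) s hs
  · intro k k' x y hx hy hxy
    change aut E (g k) x = aut E (g k') y at hxy
    have h1 : ∀ a ∈ I₀, ((g k).trans (g k').symm) a = a := by
      intro a ha
      change (g k').symm (g k a) = a
      rw [OrderIso.symm_apply_eq, hg1 k a ha, hg1 k' a ha]
    have h2 : aut E ((g k).trans (g k').symm) x = y := by
      rw [aut_trans, hxy]
      have h3 := aut_symm_apply E (g k').symm y
      exact h3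
    have h3 := hcb.image (aut E ((g k).trans (g k').symm)) (hfixB _ h1) hx (h2.symm ▸ hy)
    apply Subtype.ext
    rw [hg2 k, hg2 k']
    conv_rhs => rw [← h3]
    rw [Set.image_image]
    refine Set.image_congr fun w _ => ?_
    rw [aut_trans, aut_symm_apply]
  · intro x hx hxC
    exact hcb.not_mem hxC (hcb.b_sub hx)
  · intro s hs
    rw [hB] at hs
    exact hs.2

end em

end Pool.Agent.AEC.H56
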